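import Mathlib

set_option autoImplicit false

namespace Pool.Agent.Results.MP_d7d923_pr.Value

open MeasureTheory Set Filter Topology

abbrev Red := {r : ℝ × ℝ // 0 ≤ r.1 ∧ 0 ≤ r.2 ∧ r.1 + r.2 ≤ 1}

noncomputable def pay (β : ℝ) (x : Red × Icc (0 : ℝ) 1) : ℝ :=
  if x.1.1.1 ≤ x.2.1 ∧ x.2.1 ≤ x.1.1.1 + x.1.1.2 then -β * x.1.1.2 else x.1.1.2

noncomputable def E (β : ℝ) (μ : ProbabilityMeasure Red) (ν : ProbabilityMeasure (Icc (0 : ℝ) 1)) :
    ℝ := ∫ x, pay β x ∂((μ : Measure Red).prod ν)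

noncomputable def M (β : ℝ) : ℝ := ⨆ n : ℕ+, ((n : ℝ) - 1 - β) / (n : ℝ) ^ 2

variable {β : ℝ}

lemma pay_meas : Measurable (pay β) := by
  unfold pay
  refine Measurable.ite ?_ (by fun_prop) (by fun_prop)
  have h1 : MeasurableSet {x : Red × Icc (0 : ℝ) 1 | x.1.1.1 ≤ x.2.1} :=
    measurableSet_le (by fun_prop) (by fun_prop)
  have h2 : MeasurableSet {x : Red × Icc (0 : ℝ) 1 | x.2.1 ≤ x.1.1.1 + x.1.1.2} :=
    measurableSet_le (by fun_prop) (by fun_prop)
  exact h1.inter h2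

lemma pay_bd (hβ : 0 ≤ β) (x : Red × Icc (0 : ℝ) 1) : ‖pay β x‖ ≤ 1 + β := by
  obtain ⟨h1, h2, h3⟩ := x.1.2
  unfold pay
  rw [Real.norm_eq_abs, abs_le]
  split_ifs <;> constructor <;> nlinarith

lemma pay_int (hβ : 0 ≤ β) (ρ : Measure (Red × Icc (0 : ℝ) 1)) [IsFiniteMeasure ρ] :
    Integrable (pay β) ρ :=
  Integrable.of_bound pay_meas.aestronglyMeasurable _ (Eventually.of_forall (pay_bd hβ))

lemma E_bd (hβ : 0 ≤ β) (μ : ProbabilityMeasure Red) (ν : ProbabilityMeasure (Icc (0 : ℝ) 1)) :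
    |E β μ ν| ≤ 1 + β := by
  have := norm_integral_le_of_norm_le_const (μ := (μ : Measure Red).prod ν)
    (Eventually.of_forall (pay_bd hβ))
  simpa [E] using this

lemma M_bdd (hβ : 0 ≤ β) : BddAbove (range fun n : ℕ+ => ((n : ℝ) - 1 - β) / (n : ℝ) ^ 2) := by
  refine ⟨1, ?_⟩
  rintro _ ⟨n, rfl⟩
  have : (1 : ℝ) ≤ n := by exact_mod_cast n.2
  rw [div_le_one (by positivity)]
  nlinarith

lemma le_M (hβ : 0 ≤ β) (n : ℕ) (hn : 0 < n) : (n : ℝ) - 1 - β ≤ M β * (n : ℝ) ^ 2 := by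
  have := le_ciSup (M_bdd hβ) ⟨n, hn⟩
  rwa [PNat.mk_coe, div_le_iff₀ (by positivity)] at this

lemma M_nonneg (hβ : 0 ≤ β) : 0 ≤ M β := by
  obtain ⟨n, hn⟩ := exists_nat_gt (1 + β)
  have h0 : 0 < n := by exact_mod_cast (by linarith : (0 : ℝ) < n)
  have := le_M hβ n h0
  by_contra h
  nlinarith [mul_nonneg_of_nonpos_of_nonpos (not_le.mp h).le (neg_nonpos.mpr (sq_nonneg (n : ℝ)))]

noncomputable def g (β A : ℝ) : ℝ := (1 - M β / A) / (1 + β)

def S (β x : ℝ) : Set ℝ :=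
  {s | ∃ l : List ℝ, (∀ A ∈ l, 0 < A) ∧ l.sum ≤ x ∧ l.sum ≤ 1 ∧ s = (l.map (g β)).sum}

lemma list_bd (hβ : 0 ≤ β) (t : ℝ) (l : List ℝ) (hl : ∀ A ∈ l, 0 < A) :
    (1 + β) * (l.map (g β)).sum ≤ l.length - M β * (2 * t * l.length - t ^ 2 * l.sum) := by
  induction l with
  | nil => simp
  | cons A l ih =>
    have hA := hl A (by simp)
    have h1 := ih fun B hB => hl B (by simp [hB])
    have h2 : (1 + β) * g β A = 1 - M β * (1 / A) := by unfold g; field_simp
    have h3 : 2 * t - t ^ 2 * A ≤ 1 / A := by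
      rw [le_div_iff₀ hA]; nlinarith [sq_nonneg (t * A - 1)]
    have h4 := mul_le_mul_of_nonneg_left h3 (M_nonneg hβ)
    simp only [List.map_cons, List.sum_cons, List.length_cons]
    push_cast
    linarith

lemma S_le (hβ : 0 ≤ β) (x : ℝ) : ∀ s ∈ S β x, s ≤ 1 := by
  rintro _ ⟨l, h1, -, h3, rfl⟩
  rcases Nat.eq_zero_or_pos l.length with h | h
  · rw [List.length_eq_zero_iff.mp h]; simp
  have h4 := list_bd hβ l.length l h1
  have h5 := le_M hβ _ h
  have h6 := mul_le_mul_of_nonneg_left h3 (mul_nonneg (M_nonneg hβ) (sq_nonneg (l.length : ℝ)))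
  have : (1 + β) * (l.map (g β)).sum ≤ (1 + β) * 1 := by nlinarith
  exact le_of_mul_le_mul_left this (by linarith)

lemma S_zero {x : ℝ} (hx : 0 ≤ x) : (0 : ℝ) ∈ S β x := ⟨[], by simp, by simpa, by simp, by simp⟩

lemma S_neg {x : ℝ} (hx : x < 0) : S β x = ∅ := by
  refine eq_empty_of_forall_notMem ?_
  rintro _ ⟨l, h1, h2, -, -⟩
  linarith [List.sum_nonneg fun A hA => (h1 A hA).le]

noncomputable def H (β x : ℝ) : ℝ := if x < 1 then sSup (S β x) else 1

lemma h_le (hβ : 0 ≤ β) (x : ℝ) : sSup (S β x) ≤ 1 := Real.sSup_le (S_le hβ x) zero_le_one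

lemma h_le_H (hβ : 0 ≤ β) (x : ℝ) : sSup (S β x) ≤ H β x := by
  unfold H; split_ifs
  · exact le_rfl
  · exact h_le hβ x

lemma H_mono (hβ : 0 ≤ β) : Monotone (H β) := by
  intro x y hxy
  by_cases hx : x < 1
  · rw [H, if_pos hx]
    refine le_trans ?_ (h_le_H hβ y)
    rcases lt_or_ge x 0 with h | h
    · rw [S_neg h, Real.sSup_empty]
      rcases lt_or_ge y 0 with h' | h'
      · rw [S_neg h', Real.sSup_empty]
      · exact le_csSup ⟨1, S_le hβ y⟩ (S_zero h')
    · refine csSup_le_csSup ⟨1, S_le hβ y⟩ ⟨0, S_zero h⟩ ?_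
      rintro _ ⟨l, h1, h2, h3, rfl⟩
      exact ⟨l, h1, h2.trans hxy, h3, rfl⟩
  · rw [H, H, if_neg hx, if_neg (by linarith)]

lemma super (hβ : 0 ≤ β) (a A : ℝ) (ha : 0 ≤ a) (hA : 0 < A) (h : a + A ≤ 1) :
    sSup (S β a) + g β A ≤ sSup (S β (a + A)) := by
  rw [← le_sub_iff_add_le]
  refine csSup_le ⟨0, S_zero ha⟩ ?_
  rintro _ ⟨l, h1, h2, h3, rfl⟩
  rw [le_sub_iff_add_le]
  refine le_csSup ⟨1, S_le hβ _⟩ ⟨A :: l, ?_, ?_, ?_, ?_⟩
  · intro B hB
    rcases List.mem_cons.mp hB with rfl | hB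
    · exact hA
    · exact h1 B hB
  · simp; linarith
  · simp; linarith
  · simp [add_comm]

lemma blue (hβ : 0 ≤ β) : ∃ ν : ProbabilityMeasure (Icc (0 : ℝ) 1), ∀ μ, E β μ ν ≤ M β := by
  let F := (H_mono hβ).stieltjesFunction
  have hF : IsProbabilityMeasure F.measure := by
    apply F.isProbabilityMeasure
    · refine tendsto_const_nhds.congr' ?_
      filter_upwards [eventually_lt_atBot (-2 : ℝ)] with x hx
      have e : ∀ y, y < 0 → H β y = 0 := fun y hy => by
        rw [H, if_pos (by linarith), S_neg hy, Real.sSup_empty]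
      refine le_antisymm ?_ ?_
      · rw [← e x (by linarith)]; exact (H_mono hβ).le_rightLim le_rfl
      · rw [← e (-1) (by linarith)]; exact (H_mono hβ).rightLim_le (by linarith)
    · refine tendsto_const_nhds.congr' ?_
      filter_upwards [eventually_ge_atTop (1 : ℝ)] with x hx
      have e : ∀ y, 1 ≤ y → H β y = 1 := fun y hy => by rw [H, if_neg (by linarith)]
      refine le_antisymm ?_ ?_
      · rw [← e x hx]; exact (H_mono hβ).le_rightLim le_rfl
      · rw [← e (x + 1) (by linarith)]; exact (H_mono hβ).rightLim_le (by linarith)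
  have hp : Measurable (projIcc (0 : ℝ) 1 zero_le_one) := continuous_projIcc.measurable
  let ν : ProbabilityMeasure (Icc (0 : ℝ) 1) :=
    ⟨F.measure.map (projIcc 0 1 zero_le_one), Measure.isProbabilityMeasure_map hp.aemeasurable⟩
  refine ⟨ν, fun μ => ?_⟩
  have key : ∀ r : Red, ∫ p, pay β (r, p) ∂(ν : Measure (Icc (0 : ℝ) 1)) ≤ M β := by
    rintro ⟨⟨a, A⟩, ha, hA, h⟩
    simp only at ha hA h
    let C : Set (Icc (0 : ℝ) 1) := {p | a ≤ p.1 ∧ p.1 ≤ a + A}
    have hC : MeasurableSet C := measurable_subtype_coe (measurableSet_Icc (a := a) (b := a + A))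
    have e : (fun p => pay β (⟨(a, A), ha, hA, h⟩, p)) =
        fun p => A - C.indicator (fun _ => (1 + β) * A) p := by
      funext p
      simp only [pay, indicator, C, mem_ofPred_eq]
      split_ifs <;> ring
    rw [e, integral_sub (integrable_const _) ((integrable_const _).indicator hC),
      integral_indicator_const _ hC]
    simp only [integral_const, probReal_univ, smul_eq_mul, one_mul]
    rcases eq_or_lt_of_le hA with rfl | hA
    · simpa using M_nonneg hβ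
    have h1 : g β A ≤ (ν : Measure (Icc (0 : ℝ) 1)).real C := by
      have h2 : F.measure.real (Icc a (a + A)) ≤ (ν : Measure (Icc (0 : ℝ) 1)).real C := by
        change _ ≤ (F.measure.map (projIcc 0 1 zero_le_one)).real C
        rw [map_measureReal_apply hp hC]
        refine measureReal_mono fun x hx => ?_
        have hx' : x ∈ Icc (0 : ℝ) 1 := ⟨ha.trans hx.1, hx.2.trans h⟩
        simp only [mem_preimage, projIcc_of_mem _ hx', C, mem_ofPred_eq]
        exact hx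
      refine le_trans ?_ h2
      rw [measureReal_def, F.measure_Icc, ENNReal.toReal_ofReal']
      refine le_trans ?_ (le_max_left _ _)
      have h3 : sSup (S β (a + A)) ≤ F (a + A) :=
        (h_le_H hβ _).trans ((H_mono hβ).le_rightLim le_rfl)
      have h4 : Function.leftLim F a ≤ sSup (S β a) := by
        have : H β a = sSup (S β a) := by rw [H, if_pos (by linarith)]
        rw [← this]
        refine le_of_tendsto (F.mono.tendsto_leftLim a) ?_
        filter_upwards [self_mem_nhdsWithin] with y hy using (H_mono hβ).rightLim_le hy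
      linarith [super hβ a A ha hA h]
    have h5 : g β A * ((1 + β) * A) = A - M β := by unfold g; field_simp
    have h6 := mul_le_mul_of_nonneg_right h1 (by positivity : 0 ≤ (1 + β) * A)
    linarith
  rw [E, integral_prod _ (pay_int hβ _)]
  refine (integral_mono (pay_int hβ _).integral_prod_left (integrable_const _) key).trans ?_
  simp

lemma red (hβ : 0 ≤ β) (ε : ℝ) (hε : 0 < ε) :
    ∃ μ : ProbabilityMeasure Red, ∀ ν, M β - ε ≤ E β μ ν := by
  obtain ⟨⟨n, hn⟩, h1⟩ := exists_lt_of_lt_ciSup (f := fun n : ℕ+ =>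
    ((n : ℝ) - 1 - β) / (n : ℝ) ^ 2) (sub_lt_self (M β) (half_pos hε))
  rw [PNat.mk_coe] at h1
  have hn1 : (1 : ℝ) ≤ n := by exact_mod_cast hn
  obtain ⟨η, η0, η1, η2⟩ : ∃ η : ℝ, 0 < η ∧ η ≤ 1 ∧ η ≤ ε / 2 :=
    ⟨min 1 (ε / 2), by positivity, min_le_left _ _, min_le_right _ _⟩
  have : NeZero n := ⟨hn.ne'⟩
  let A : ℝ := (1 - η) / n
  have hA : 0 ≤ A := div_nonneg (by linarith) (by linarith)
  let r : Fin n → Red := fun i => ⟨((i : ℝ) / n, A), by positivity, hA, by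
    have : (i : ℝ) + 1 ≤ n := by exact_mod_cast i.2
    simp only [A]
    rw [← add_div, div_le_one (by linarith)]
    linarith⟩
  have hr : Measurable r := measurable_of_countable _
  let u : Measure (Fin n) := (PMF.uniformOfFintype (Fin n)).toMeasure
  let μ : ProbabilityMeasure Red := ⟨u.map r, Measure.isProbabilityMeasure_map hr.aemeasurable⟩
  refine ⟨μ, fun ν => ?_⟩
  have key : ∀ p, M β - ε ≤ ∫ x, pay β (x, p) ∂(μ : Measure Red) := by
    intro p
    change _ ≤ ∫ x, pay β (x, p) ∂(u.map r)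
    have hm : Measurable fun x : Red => pay β (x, p) := pay_meas.comp measurable_prodMk_right
    rw [integral_map hr.aemeasurable hm.aestronglyMeasurable, PMF.integral_eq_sum]
    simp only [PMF.uniformOfFintype_apply, Fintype.card_fin, ENNReal.toReal_inv,
      ENNReal.toReal_natCast, smul_eq_mul, ← Finset.mul_sum]
    let T := Finset.univ.filter fun i : Fin n => (i : ℝ) / n ≤ p.1 ∧ p.1 ≤ (i : ℝ) / n + A
    have hT : T.card ≤ 1 := by
      refine Finset.card_le_one.mpr fun i hi j hj => ?_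
      have k : ∀ i ∈ T, ∀ j ∈ T, (i : ℝ) < j + 1 := by
        intro i hi j hj
        have a1 := (Finset.mem_filter.mp hi).2.1.trans (Finset.mem_filter.mp hj).2.2
        simp only [A] at a1
        rw [← add_div, div_le_div_iff_of_pos_right (by linarith)] at a1
        linarith
      have b1 : i.1 < j.1 + 1 := by exact_mod_cast k i hi j hj
      have b2 : j.1 < i.1 + 1 := by exact_mod_cast k j hj i hi
      ext; omega
    have e : ∑ i, pay β (r i, p) = n * A - T.card * ((1 + β) * A) := by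
      have : ∀ i, pay β (r i, p) = A - if i ∈ T then (1 + β) * A else 0 := by
        intro i
        simp only [pay, r, T, Finset.mem_filter, Finset.mem_univ, true_and]
        split_ifs <;> ring
      simp [this, Finset.sum_sub_distrib]
    have hT' : (T.card : ℝ) ≤ 1 := by exact_mod_cast hT
    have h2 : (n : ℝ)⁻¹ * (n * A - 1 * ((1 + β) * A)) ≤ (n : ℝ)⁻¹ * ∑ i, pay β (r i, p) := by
      rw [e]; gcongr
    have h3 : (n : ℝ)⁻¹ * (n * A - 1 * ((1 + β) * A)) =
        (1 - η) * (((n : ℝ) - 1 - β) / (n : ℝ) ^ 2) := by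
      simp only [A]; field_simp; ring
    have h4 : ((n : ℝ) - 1 - β) / (n : ℝ) ^ 2 ≤ 1 := by
      rw [div_le_one (by positivity)]; nlinarith
    nlinarith
  rw [E, integral_prod_symm _ (pay_int hβ _)]
  refine le_trans ?_ (integral_mono (integrable_const _) (pay_int hβ _).integral_prod_right key)
  simp

theorem result (β : ℝ) (hβ : 0 ≤ β) :
    (⨆ μ, ⨅ ν, E β μ ν) = M β ∧ (⨅ ν, ⨆ μ, E β μ ν) = M β := by
  obtain ⟨ν0, h0⟩ := blue hβ
  obtain ⟨μ0, -⟩ := red hβ 1 one_pos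
  have : Nonempty (ProbabilityMeasure Red) := ⟨μ0⟩
  have : Nonempty (ProbabilityMeasure (Icc (0 : ℝ) 1)) := ⟨ν0⟩
  have b1 : ∀ μ, BddBelow (range fun ν => E β μ ν) := fun μ =>
    ⟨-(1 + β), by rintro _ ⟨ν, rfl⟩; exact (abs_le.mp (E_bd hβ μ ν)).1⟩
  have b2 : ∀ ν, BddAbove (range fun μ => E β μ ν) := fun ν =>
    ⟨1 + β, by rintro _ ⟨μ, rfl⟩; exact (abs_le.mp (E_bd hβ μ ν)).2⟩
  have u1 : ∀ μ, ⨅ ν, E β μ ν ≤ M β := fun μ => (ciInf_le (b1 μ) ν0).trans (h0 μ)
  have u2 : ∀ ν, M β ≤ ⨆ μ, E β μ ν := fun ν => le_of_forall_pos_le_add fun ε hε => by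
    obtain ⟨μ, h⟩ := red hβ ε hε
    linarith [h ν, le_ciSup (b2 ν) μ]
  refine ⟨le_antisymm (ciSup_le u1) (le_of_forall_pos_le_add fun ε hε => ?_),
    le_antisymm ?_ (le_ciInf u2)⟩
  · obtain ⟨μ, h⟩ := red hβ ε hε
    have h1 : M β - ε ≤ ⨅ ν, E β μ ν := le_ciInf h
    have h2 := le_ciSup (f := fun μ => ⨅ ν, E β μ ν) ⟨M β, by rintro _ ⟨μ, rfl⟩; exact u1 μ⟩ μ
    linarith
  · exact (ciInf_le ⟨M β, by rintro _ ⟨ν, rfl⟩; exact u2 ν⟩ ν0).trans (ciSup_le h0)

end Pool.Agent.Results.MP_d7d923_pr.Value
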